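import Pool.Agent.Q54.EM.StmN

/-!
# Project EM of helper54, job CS: the constants of the crossing point
-/

set_option autoImplicit false

namespace Pool.Agent.Q176.EM.CS

open Finset Pool.Agent.Q54.EM

/-! ## Logarithms and exponentials -/

theorem nl_ge (n : ℕ) {x : ℝ} (h0 : 0 ≤ x) (h1 : x < 1) :
    ∑ i ∈ range n, x ^ (i + 1) / ((i : ℝ) + 1) ≤ -Real.log (1 - x) := by
  have h := Real.hasSum_pow_div_log_of_abs_lt_one (x := x) (by rw [abs_of_nonneg h0]; exact h1)
  exact sum_le_hasSum (range n) (fun i _ => by positivity) h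

theorem nl_le (n : ℕ) {x : ℝ} (h0 : 0 ≤ x) (h1 : x < 1) :
    -Real.log (1 - x) ≤ ∑ i ∈ range n, x ^ (i + 1) / ((i : ℝ) + 1) + x ^ (n + 1) / (1 - x) := by
  have h := Real.abs_log_sub_add_sum_range_le (x := x) (by rw [abs_of_nonneg h0]; exact h1) n
  rw [abs_of_nonneg h0] at h
  have := (abs_le.1 h).1
  linarith

theorem pow_exp {x : ℝ} (hx : 0 < x) (k : ℕ) : x ^ k = Real.exp (-(k * -Real.log x)) := by
  rw [mul_neg, neg_neg, ← Real.log_pow, Real.exp_log (pow_pos hx k)]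

theorem em1_low : (367879 / 1000000 : ℝ) ≤ Real.exp (-1) := by
  rw [Real.exp_neg, le_inv_comm₀ (by norm_num) (Real.exp_pos _)]
  have := Real.exp_one_lt_d9
  norm_num
  linarith

theorem em1_up : Real.exp (-1) ≤ (36788 / 100000 : ℝ) := by
  rw [Real.exp_neg, inv_le_comm₀ (Real.exp_pos _) (by norm_num)]
  have := Real.exp_one_gt_d9
  norm_num
  linarith

theorem em2_low : (632547 / 1000000 : ℝ) ≤ Real.exp (-(458 / 1000)) := by
  have h := Real.exp_bound (x := -(458 / 1000 : ℝ)) (by rw [abs_neg, abs_of_nonneg] <;> norm_num)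
    (n := 9) (by norm_num)
  rw [abs_neg, abs_of_nonneg (by norm_num : (0 : ℝ) ≤ 458 / 1000)] at h
  have h1 := (abs_le.1 h).1
  simp only [Finset.sum_range_succ, Finset.sum_range_zero, Nat.factorial] at h1
  norm_num at h1
  linarith

theorem em3_up : Real.exp (-(4724 / 10000)) ≤ (62351 / 100000 : ℝ) := by
  have h := Real.exp_bound (x := -(4724 / 10000 : ℝ)) (by rw [abs_neg, abs_of_nonneg] <;> norm_num)
    (n := 9) (by norm_num)
  rw [abs_neg, abs_of_nonneg (by norm_num : (0 : ℝ) ≤ 4724 / 10000)] at h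
  have h1 := (abs_le.1 h).2
  simp only [Finset.sum_range_succ, Finset.sum_range_zero, Nat.factorial] at h1
  norm_num at h1
  linarith

/-! ## The function `F` -/

theorem F_lt {k : ℕ} (hk : 2 ≤ k) {r s : ℝ} (hr1 : r ≤ 1) (hF : r ^ k + (1 - r / k) ^ k ≤ 1)
    (hs0 : 0 < s) (hsr : s < r) : s ^ k + (1 - s / k) ^ k < 1 := by
  have hr0 : 0 < r := hs0.trans hsr
  have hkR : (2 : ℝ) ≤ k := by exact_mod_cast hk
  have hk0 : (0 : ℝ) < k := by linarith
  obtain ⟨θ, hθ⟩ : ∃ θ : ℝ, θ = s / r := ⟨_, rfl⟩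
  have hθ0 : 0 < θ := by rw [hθ]; positivity
  have hθ1 : θ < 1 := by rw [hθ, div_lt_one hr0]; exact hsr
  have hs : s = θ * r := by rw [hθ]; field_simp
  have h1 : s ^ k < θ * r ^ k := by
    rw [hs, mul_pow]
    refine mul_lt_mul_of_pos_right ?_ (pow_pos hr0 k)
    exact pow_lt_self_of_lt_one₀ hθ0 hθ1 (by omega)
  have h2 : (1 - s / k) ^ k ≤ (1 - θ) * 1 + θ * (1 - r / k) ^ k := by
    have hrk : r / k ≤ 1 := by rw [div_le_one hk0]; linarith
    have h3 := (convexOn_pow (𝕜 := ℝ) k).2 (show (1 : ℝ) ∈ Set.Ici (0 : ℝ) by simp)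
      (show 1 - r / k ∈ Set.Ici (0 : ℝ) by simpa using hrk) (show 0 ≤ 1 - θ by linarith) hθ0.le
      (by ring)
    simp only [smul_eq_mul, one_pow] at h3
    have e : (1 - θ) * 1 + θ * (1 - r / k) = 1 - s / k := by
      rw [hs]
      ring
    rw [e] at h3
    exact h3
  nlinarith

/-! ## Lower test -/

theorem up1 {K a : ℝ} (ha : 0 < a) (ha6 : a ≤ 1 / 6) (hk0 : 0 ≤ K)
    (hk : K * a ≤ 1 - (458 / 1000 + 88 / 1000 * a) * a) :
    K * -Real.log (1 - a) ≤ 1 + 42 / 1000 * a + 31814 / 1000000 * a ^ 2 := by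
  have h2 := nl_le 5 ha.le (by linarith : a < 1)
  simp only [Finset.sum_range_succ, Finset.sum_range_zero] at h2
  have h3 : a ^ (5 + 1) / (1 - a) ≤ 12 / 10 * a ^ 6 := by
    rw [div_le_iff₀ (by linarith)]
    have : 0 < a ^ 6 := by positivity
    nlinarith
  have h4 : K * -Real.log (1 - a) ≤
      K * (a * (1 + a / 2 + a ^ 2 / 3 + a ^ 3 / 4 + a ^ 4 / 5 + 12 / 10 * a ^ 5)) := by
    refine mul_le_mul_of_nonneg_left ?_ hk0
    refine h2.trans ?_
    push_cast
    linarith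
  refine h4.trans ?_
  rw [← mul_assoc]
  refine (mul_le_mul_of_nonneg_right hk (by positivity)).trans ?_
  have b2 : 0 ≤ a ^ 2 := by positivity
  have b3 : a ^ 3 ≤ a ^ 2 / 6 := by nlinarith
  have b4 : a ^ 4 ≤ a ^ 2 / 36 := by nlinarith
  have b5 : a ^ 5 ≤ a ^ 2 / 216 := by nlinarith
  have b6 : 0 ≤ a ^ 6 := by positivity
  have b7 : 0 ≤ a ^ 7 := by positivity
  have e : (1 - (458 / 1000 + 88 / 1000 * a) * a) *
      (1 + a / 2 + a ^ 2 / 3 + a ^ 3 / 4 + a ^ 4 / 5 + 12 / 10 * a ^ 5) =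
      1 + 42 / 1000 * a + (1 / 3 - 229 / 1000 - 88 / 1000) * a ^ 2 +
      (1 / 4 - 458 / 3000 - 44 / 1000) * a ^ 3 + (1 / 5 - 458 / 4000 - 88 / 3000) * a ^ 4 +
      (12 / 10 - 458 / 5000 - 22 / 1000) * a ^ 5 - (12 / 10 * (458 / 1000) + 88 / 5000) * a ^ 6 -
      12 / 10 * (88 / 1000) * a ^ 7 := by ring
  rw [e]
  linarith

theorem F_low {k : ℕ} {a b : ℝ} (ha : 0 < a) (ha6 : a ≤ 1 / 6)
    (hb : b = 458 / 1000 + 88 / 1000 * a) (hk : (k : ℝ) * a = 1 - b * a) :
    1 ≤ (k * a) ^ k + (1 - a) ^ k := by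
  have hb0 : 458 / 1000 ≤ b := by rw [hb]; linarith
  have hb1 : b ≤ 473 / 1000 := by rw [hb]; linarith
  obtain ⟨x, hx⟩ : ∃ x : ℝ, x = b * a := ⟨_, rfl⟩
  have hx0 : 0 < x := by rw [hx]; exact mul_pos (by linarith) ha
  have hx1 : x ≤ 79 / 1000 := by
    rw [hx]
    have := mul_le_mul hb1 ha6 ha.le (by norm_num)
    linarith
  rw [hk, ← hx, pow_exp (show (0 : ℝ) < 1 - x by linarith), pow_exp (show (0 : ℝ) < 1 - a by linarith)]
  rw [← hx] at hk
  have hk0 : (0 : ℝ) ≤ k := Nat.cast_nonneg k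
  -- first exponent
  have h1 : (k : ℝ) * -Real.log (1 - a) ≤ 1 + 42 / 1000 * a + 31814 / 1000000 * a ^ 2 := by
    refine up1 ha ha6 hk0 ?_
    rw [hk, hx, hb]
  -- second exponent
  have h5 : (k : ℝ) * -Real.log (1 - x) ≤ 458 / 1000 - 16882 / 1000000 * a - 56314 / 1000000 * a ^ 2 := by
    have h2 := nl_le 4 hx0.le (by linarith : x < 1)
    simp only [Finset.sum_range_succ, Finset.sum_range_zero] at h2
    have h3 : x ^ (4 + 1) / (1 - x) ≤ 11 / 10 * x ^ 5 := by
      rw [div_le_iff₀ (by linarith)]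
      have : 0 < x ^ 5 := by positivity
      nlinarith
    have h4 : (k : ℝ) * -Real.log (1 - x) ≤
        k * (a * (b * (1 + x / 2 + x ^ 2 / 3 + x ^ 3 / 4 + 11 / 10 * x ^ 4))) := by
      refine mul_le_mul_of_nonneg_left ?_ hk0
      refine h2.trans ?_
      have e : a * (b * (1 + x / 2 + x ^ 2 / 3 + x ^ 3 / 4 + 11 / 10 * x ^ 4)) =
        x * (1 + x / 2 + x ^ 2 / 3 + x ^ 3 / 4 + 11 / 10 * x ^ 4) := by rw [hx]; ring
      rw [e]
      push_cast
      linarith
    refine h4.trans ?_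
    rw [← mul_assoc, hk]
    have h6 : (1 - x) * (b * (1 + x / 2 + x ^ 2 / 3 + x ^ 3 / 4 + 11 / 10 * x ^ 4)) ≤
        b * (1 - x / 2 - x ^ 2 / 6) := by
      have e : (1 - x) * (b * (1 + x / 2 + x ^ 2 / 3 + x ^ 3 / 4 + 11 / 10 * x ^ 4)) =
        b * (1 - x / 2 - x ^ 2 / 6) - b * (x ^ 3 * (1 / 12 - 85 / 100 * x + 11 / 10 * x ^ 2)) := by
        ring
      rw [e]
      have : 0 ≤ b * (x ^ 3 * (1 / 12 - 85 / 100 * x + 11 / 10 * x ^ 2)) := by
        refine mul_nonneg (by linarith) (mul_nonneg (by positivity) ?_)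
        have : 0 ≤ x ^ 2 := by positivity
        linarith
      linarith
    refine h6.trans ?_
    have h7 : b * (1 - x / 2 - x ^ 2 / 6) = b - b ^ 2 * a / 2 - b ^ 3 * a ^ 2 / 6 := by
      rw [hx]
      ring
    rw [h7]
    have b2 : 209764 / 1000000 + 80608 / 1000000 * a ≤ b ^ 2 := by
      rw [hb]
      nlinarith [sq_nonneg a]
    have b3 : 9607 / 100000 ≤ b ^ 3 := by
      have := pow_le_pow_left₀ (by norm_num : (0 : ℝ) ≤ 458 / 1000) hb0 3
      norm_num at this ⊢
      linarith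
    have b4 : (209764 / 1000000 + 80608 / 1000000 * a) * a ≤ b ^ 2 * a :=
      mul_le_mul_of_nonneg_right b2 ha.le
    have b5 : 9607 / 100000 * a ^ 2 ≤ b ^ 3 * a ^ 2 := mul_le_mul_of_nonneg_right b3 (by positivity)
    rw [hb] at b4 b5 ⊢
    have : 0 ≤ a ^ 2 := by positivity
    nlinarith
  have k1 : 367879 / 1000000 * (1 - 42 / 1000 * a - 31814 / 1000000 * a ^ 2) ≤
      Real.exp (-(k * -Real.log (1 - a))) := by
    have e1 : Real.exp (-(1 + 42 / 1000 * a + 31814 / 1000000 * a ^ 2)) ≤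
        Real.exp (-(k * -Real.log (1 - a))) := Real.exp_le_exp.2 (by linarith)
    refine le_trans ?_ e1
    have e2 : Real.exp (-(1 + 42 / 1000 * a + 31814 / 1000000 * a ^ 2)) =
        Real.exp (-1) * Real.exp (-(42 / 1000 * a + 31814 / 1000000 * a ^ 2)) := by
      rw [← Real.exp_add]
      congr 1
      ring
    rw [e2]
    have e3 := Real.add_one_le_exp (-(42 / 1000 * a + 31814 / 1000000 * a ^ 2))
    have e4 : 0 ≤ 1 - 42 / 1000 * a - 31814 / 1000000 * a ^ 2 := by nlinarith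
    exact mul_le_mul em1_low (by linarith) e4 (Real.exp_pos _).le
  have k2 : 632547 / 1000000 * (1 + 16882 / 1000000 * a + 56314 / 1000000 * a ^ 2) ≤
      Real.exp (-(k * -Real.log (1 - x))) := by
    have e1 : Real.exp (-(458 / 1000 - 16882 / 1000000 * a - 56314 / 1000000 * a ^ 2)) ≤
        Real.exp (-(k * -Real.log (1 - x))) := Real.exp_le_exp.2 (by linarith)
    refine le_trans ?_ e1
    have e2 : Real.exp (-(458 / 1000 - 16882 / 1000000 * a - 56314 / 1000000 * a ^ 2)) =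
        Real.exp (-(458 / 1000)) * Real.exp (16882 / 1000000 * a + 56314 / 1000000 * a ^ 2) := by
      rw [← Real.exp_add]
      congr 1
      ring
    rw [e2]
    have e3 := Real.add_one_le_exp (16882 / 1000000 * a + 56314 / 1000000 * a ^ 2)
    exact mul_le_mul em2_low (by linarith) (by positivity) (Real.exp_pos _).le
  nlinarith [sq_nonneg (a - 1 / 10)]

/-! ## Upper test -/

theorem F_up {k : ℕ} {a b : ℝ} (ha : 0 < a) (ha7 : a ≤ 134 / 1000)
    (hb : b = 4724 / 10000) (hk : (k : ℝ) * a = 1 - b * a) :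
    (k * a) ^ k + (1 - a) ^ k ≤ 1 := by
  obtain ⟨x, hx⟩ : ∃ x : ℝ, x = b * a := ⟨_, rfl⟩
  have hx0 : 0 < x := by rw [hx, hb]; positivity
  have hx1 : x ≤ 64 / 1000 := by
    rw [hx, hb]
    linarith
  rw [hk, ← hx, pow_exp (show (0 : ℝ) < 1 - x by linarith), pow_exp (show (0 : ℝ) < 1 - a by linarith)]
  rw [← hx] at hk
  have hk0 : (0 : ℝ) ≤ k := Nat.cast_nonneg k
  have b2 : 0 ≤ a ^ 2 := by positivity
  have b3 : a ^ 3 ≤ 134 / 1000 * a ^ 2 := by nlinarith
  have b3' : 0 ≤ a ^ 3 := by positivity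
  have h1 : 1 + 276 / 10000 * a ≤ (k : ℝ) * -Real.log (1 - a) := by
    have h2 := nl_ge 3 ha.le (by linarith : a < 1)
    simp only [Finset.sum_range_succ, Finset.sum_range_zero] at h2
    have h4 : (k : ℝ) * (a * (1 + a / 2 + a ^ 2 / 3)) ≤ k * -Real.log (1 - a) := by
      refine mul_le_mul_of_nonneg_left ?_ hk0
      refine le_trans ?_ h2
      push_cast
      linarith
    refine le_trans ?_ h4
    rw [← mul_assoc, hk, hx, hb]
    nlinarith
  have h5 : 4724 / 10000 - 115 / 1000 * a ≤ (k : ℝ) * -Real.log (1 - x) := by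
    have h2 := nl_ge 3 hx0.le (by linarith : x < 1)
    simp only [Finset.sum_range_succ, Finset.sum_range_zero] at h2
    have h4 : (k : ℝ) * (a * (b * (1 + x / 2 + x ^ 2 / 3))) ≤ k * -Real.log (1 - x) := by
      refine mul_le_mul_of_nonneg_left ?_ hk0
      refine le_trans ?_ h2
      have e : a * (b * (1 + x / 2 + x ^ 2 / 3)) = x * (1 + x / 2 + x ^ 2 / 3) := by rw [hx]; ring
      rw [e]
      push_cast
      linarith
    refine le_trans ?_ h4
    rw [← mul_assoc, hk, hx, hb]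
    nlinarith
  have k1 : Real.exp (-(k * -Real.log (1 - a))) ≤ 36788 / 100000 * (1 - 27 / 1000 * a) := by
    have e1 : Real.exp (-(k * -Real.log (1 - a))) ≤ Real.exp (-(1 + 276 / 10000 * a)) :=
      Real.exp_le_exp.2 (by linarith)
    refine e1.trans ?_
    have e2 : Real.exp (-(1 + 276 / 10000 * a)) = Real.exp (-1) * Real.exp (-(276 / 10000 * a)) := by
      rw [← Real.exp_add]
      congr 1
      ring
    rw [e2]
    have e3 : Real.exp (-(276 / 10000 * a)) ≤ 1 - 27 / 1000 * a := by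
      rw [Real.exp_neg, inv_le_comm₀ (Real.exp_pos _) (by linarith)]
      have e4 := Real.add_one_le_exp (276 / 10000 * a)
      refine le_trans ?_ e4
      rw [inv_le_iff_one_le_mul₀ (by linarith)]
      nlinarith
    exact mul_le_mul em1_up e3 (Real.exp_pos _).le (by norm_num)
  have k2 : Real.exp (-(k * -Real.log (1 - x))) ≤ 62351 / 100000 * (1 + 118 / 1000 * a) := by
    have e1 : Real.exp (-(k * -Real.log (1 - x))) ≤ Real.exp (-(4724 / 10000 - 115 / 1000 * a)) :=
      Real.exp_le_exp.2 (by linarith)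
    refine e1.trans ?_
    have e2 : Real.exp (-(4724 / 10000 - 115 / 1000 * a)) =
        Real.exp (-(4724 / 10000)) * Real.exp (115 / 1000 * a) := by
      rw [← Real.exp_add]
      congr 1
      ring
    rw [e2]
    have e3 : Real.exp (115 / 1000 * a) ≤ 1 + 118 / 1000 * a := by
      have e4 := Real.add_one_le_exp (-(115 / 1000 * a))
      have e5 : Real.exp (115 / 1000 * a) = (Real.exp (-(115 / 1000 * a)))⁻¹ := by
        rw [Real.exp_neg, inv_inv]
      rw [e5, inv_le_iff_one_le_mul₀ (Real.exp_pos _)]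
      have e6 : 1 ≤ (1 + 118 / 1000 * a) * (1 - 115 / 1000 * a) := by nlinarith
      have e7 : (1 + 118 / 1000 * a) * (1 - 115 / 1000 * a) ≤
          (1 + 118 / 1000 * a) * Real.exp (-(115 / 1000 * a)) :=
        mul_le_mul_of_nonneg_left (by linarith) (by linarith)
      linarith
    exact mul_le_mul em3_up e3 (Real.exp_pos _).le (by norm_num)
  linarith

/-! ## The constants -/

theorem exists_root {k : ℕ} (hk : 6 ≤ k) :
    ∃ a : ℝ, 0 < a ∧ a ≤ 1 / 6 ∧ ((k : ℝ) + (458 / 1000 + 88 / 1000 * a)) * a = 1 := by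
  have hkR : (6 : ℝ) ≤ k := by exact_mod_cast hk
  have hc : ContinuousOn (fun a : ℝ => ((k : ℝ) + (458 / 1000 + 88 / 1000 * a)) * a)
      (Set.Icc 0 (1 / 6)) := by fun_prop
  have h := intermediate_value_Icc (by norm_num : (0 : ℝ) ≤ 1 / 6) hc
  have h1 : (1 : ℝ) ∈ Set.Icc (((k : ℝ) + (458 / 1000 + 88 / 1000 * 0)) * 0)
      (((k : ℝ) + (458 / 1000 + 88 / 1000 * (1 / 6))) * (1 / 6)) := by
    constructor
    · norm_num
    · linarith
  obtain ⟨a, ⟨ha0, ha1⟩, ha⟩ := h h1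
  refine ⟨a, lt_of_le_of_ne ha0 ?_, ha1, ha⟩
  rintro rfl
  simp at ha

theorem low {k : ℕ} {r : ℝ} (hk : 6 ≤ k) (h : RC k r) :
    458 / 1000 + 88 / 1000 * (r / k) ≤ k * (1 - r) / r := by
  obtain ⟨hr0, hr1, hF⟩ := h
  have hkR : (6 : ℝ) ≤ k := by exact_mod_cast hk
  have hk0 : (0 : ℝ) < k := by linarith
  obtain ⟨a, ha0, ha6, ha⟩ := exists_root hk
  obtain ⟨b, hb⟩ : ∃ b : ℝ, b = 458 / 1000 + 88 / 1000 * a := ⟨_, rfl⟩
  rw [← hb] at ha
  have hka : (k : ℝ) * a = 1 - b * a := by linarith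
  have h1 := F_low ha0 ha6 hb hka
  have h2 : r ≤ k * a := by
    by_contra hcon
    push Not at hcon
    have h3 := F_lt (k := k) (by omega) hr1.le hF.le (mul_pos hk0 ha0) hcon
    have e : (k : ℝ) * a / k = a := by field_simp
    rw [e] at h3
    linarith
  have h3 : r / k ≤ a := by
    rw [div_le_iff₀ hk0]
    linarith
  have h4 : b ≤ k * (1 - r) / r := by
    rw [le_div_iff₀ hr0]
    have hb0 : 0 < b := by rw [hb]; positivity
    have : (b + k) * r ≤ (b + k) * (k * a) := mul_le_mul_of_nonneg_left h2 (by linarith)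
    nlinarith
  refine le_trans ?_ h4
  rw [hb]
  linarith

theorem upp {k : ℕ} {r : ℝ} (hk : 6 ≤ k) (h : RC k r) : k * (1 - r) / r ≤ 4724 / 10000 := by
  obtain ⟨hr0, hr1, hF⟩ := h
  have hkR : (6 : ℝ) ≤ k := by exact_mod_cast hk
  have hk0 : (0 : ℝ) < k := by linarith
  obtain ⟨b, hb⟩ : ∃ b : ℝ, b = 4724 / 10000 := ⟨_, rfl⟩
  have hb0 : 0 < b := by rw [hb]; norm_num
  obtain ⟨a, ha⟩ : ∃ a : ℝ, a = 1 / (k + b) := ⟨_, rfl⟩
  have ha0 : 0 < a := by rw [ha]; positivity
  have hkb : ((k : ℝ) + b) * a = 1 := by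
    rw [ha]
    field_simp
  have hka : (k : ℝ) * a = 1 - b * a := by linarith
  have h1 : (k * a) ^ k + (1 - a) ^ k ≤ 1 := by
    rcases Nat.lt_or_ge 6 k with h6 | h6
    · refine F_up ha0 ?_ hb hka
      have h7 : (7 : ℝ) ≤ k := by exact_mod_cast h6
      rw [ha, div_le_iff₀ (by positivity), hb]
      linarith
    · obtain rfl : k = 6 := by omega
      rw [ha, hb]
      norm_num
  have h2 : k * a ≤ r := by
    by_contra hcon
    push Not at hcon
    have h3 := F_lt (k := k) (r := k * a) (s := r) (by omega)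
      (by rw [hka]; have := mul_pos hb0 ha0; linarith) (by
        have e : (k : ℝ) * a / k = a := by field_simp
        rw [e]
        exact h1) hr0 hcon
    linarith
  rw [← hb, div_le_iff₀ hr0]
  have : (b + k) * (k * a) ≤ (b + k) * r := mul_le_mul_of_nonneg_left h2 (by linarith)
  nlinarith

theorem cs : S_CS := by
  intro k r hk hRC
  have hl := low hk hRC
  have hu := upp hk hRC
  obtain ⟨hr0, hr1, hF⟩ := hRC
  have hkR : (6 : ℝ) ≤ k := by exact_mod_cast hk
  have hk0 : (0 : ℝ) < k := by linarith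
  obtain ⟨a, ha⟩ : ∃ a : ℝ, a = r / k := ⟨_, rfl⟩
  obtain ⟨c, hc⟩ : ∃ c : ℝ, c = k * (1 - r) / r := ⟨_, rfl⟩
  rw [← ha, ← hc] at hl
  rw [← hc] at hu
  rw [← ha, ← hc]
  have ha0 : 0 < a := by rw [ha]; positivity
  have hka : (k : ℝ) * a = r := by rw [ha]; field_simp
  have hca : c * a = 1 - r := by rw [hc, ha]; field_simp
  have ha6 : a ≤ 15456 / 100000 := by
    by_contra hcon
    push Not at hcon
    have h1 : ((k : ℝ) + c) * a = 1 := by linarith
    have h2 : (6 + (458 / 1000 + 88 / 1000 * a)) * a ≤ (k + c) * a :=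
      mul_le_mul_of_nonneg_right (by linarith) ha0.le
    nlinarith
  have hr : 92 / 100 ≤ r := by
    have : c * a ≤ 4724 / 10000 * (15456 / 100000) := mul_le_mul hu ha6 ha0.le (by norm_num)
    linarith
  have hT : 1 - r ^ k = (1 - a) ^ k := by rw [ha]; linarith
  have hTe : 1 - r ^ k = Real.exp (-(k * -Real.log (1 - a))) := by
    rw [hT]
    exact pow_exp (by linarith) k
  have b2 : 0 ≤ a ^ 2 := by positivity
  have b3 : 0 ≤ a ^ 3 := by positivity
  have n1 : 1 ≤ (k : ℝ) * -Real.log (1 - a) := by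
    have h2 := nl_ge 3 ha0.le (by linarith : a < 1)
    simp only [Finset.sum_range_succ, Finset.sum_range_zero] at h2
    have h4 : (k : ℝ) * (a * (1 + a / 2 + a ^ 2 / 3)) ≤ k * -Real.log (1 - a) := by
      refine mul_le_mul_of_nonneg_left ?_ hk0.le
      refine le_trans ?_ h2
      push_cast
      linarith
    refine le_trans ?_ h4
    rw [← mul_assoc, hka, show r = 1 - c * a by linarith]
    have h5 : (1 - 4724 / 10000 * a) * (1 + a / 2 + a ^ 2 / 3) ≤ (1 - c * a) * (1 + a / 2 + a ^ 2 / 3) := by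
      refine mul_le_mul_of_nonneg_right ?_ (by positivity)
      have := mul_le_mul_of_nonneg_right hu ha0.le
      linarith
    refine le_trans ?_ h5
    have b3' : a ^ 3 ≤ 15456 / 100000 * a ^ 2 := by nlinarith
    nlinarith
  have n2 := up1 (K := (k : ℝ)) ha0 (by linarith) hk0.le (by
    have := mul_le_mul_of_nonneg_right hl ha0.le
    linarith)
  have hTl : 365 / 1000 ≤ 1 - r ^ k := by
    rw [hTe]
    have e1 : Real.exp (-(1 + 42 / 1000 * a + 31814 / 1000000 * a ^ 2)) ≤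
        Real.exp (-(k * -Real.log (1 - a))) := Real.exp_le_exp.2 (by linarith)
    refine le_trans ?_ e1
    have e2 : Real.exp (-(1 + 42 / 1000 * a + 31814 / 1000000 * a ^ 2)) =
        Real.exp (-1) * Real.exp (-(42 / 1000 * a + 31814 / 1000000 * a ^ 2)) := by
      rw [← Real.exp_add]
      congr 1
      ring
    rw [e2]
    have e3 := Real.add_one_le_exp (-(42 / 1000 * a + 31814 / 1000000 * a ^ 2))
    have e5 : a ^ 2 ≤ 2389 / 100000 := by nlinarith
    have e4 : (992747 / 1000000 : ℝ) ≤ Real.exp (-(42 / 1000 * a + 31814 / 1000000 * a ^ 2)) := by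
      linarith
    have := mul_le_mul em1_low e4 (by norm_num) (Real.exp_pos _).le
    linarith
  have hTu : 1 - r ^ k ≤ 3679 / 10000 := by
    rw [hTe]
    have e1 : Real.exp (-(k * -Real.log (1 - a))) ≤ Real.exp (-1) := Real.exp_le_exp.2 (by linarith)
    linarith [em1_up]
  have h4 : 3963 / 1000 + 39 / 100 * a ≤ (1 + c) / (1 - r ^ k) := by
    have i1 : (1 + c) / (1 - r ^ k) = (1 + c) * Real.exp (k * -Real.log (1 - a)) := by
      rw [hTe, Real.exp_neg, div_inv_eq_mul]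
    rw [i1]
    obtain ⟨b, hb⟩ : ∃ b : ℝ, b = 458 / 1000 + 88 / 1000 * a := ⟨_, rfl⟩
    rw [← hb] at hl
    obtain ⟨nl, hnl⟩ : ∃ nl : ℝ, nl = -Real.log (1 - a) := ⟨_, rfl⟩
    rw [← hnl]
    have m1 := nl_ge 4 ha0.le (by linarith : a < 1)
    simp only [Finset.sum_range_succ, Finset.sum_range_zero] at m1
    have m2 := nl_le 1 ha0.le (by linarith : a < 1)
    simp only [Finset.sum_range_succ, Finset.sum_range_zero] at m2
    rw [← hnl] at m1 m2
    have hnl0 : 0 ≤ nl := by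
      refine le_trans ?_ m1
      positivity
    have hnlu : nl ≤ 2 / 10 := by
      refine m2.trans ?_
      have : a ^ (1 + 1) / (1 - a) ≤ 3 / 100 := by
        rw [div_le_iff₀ (by linarith)]
        nlinarith
      push_cast
      linarith
    obtain ⟨K, hK⟩ : ∃ K : ℝ, K = (k : ℝ) + (c - b) := ⟨_, rfl⟩
    have hKa : K * a = 1 - b * a := by
      rw [hK]
      linarith
    have hK0 : 0 ≤ K := by rw [hK]; linarith
    have m3 : 1 + 42 / 1000 * a ≤ K * nl := by
      have m4 : K * (a * (1 + a / 2 + a ^ 2 / 3 + a ^ 3 / 4)) ≤ K * nl := by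
        refine mul_le_mul_of_nonneg_left ?_ hK0
        refine le_trans ?_ m1
        push_cast
        linarith
      refine le_trans ?_ m4
      rw [← mul_assoc, hKa, hb]
      have e : (1 - (458 / 1000 + 88 / 1000 * a) * a) * (1 + a / 2 + a ^ 2 / 3 + a ^ 3 / 4) =
        1 + 42 / 1000 * a + a ^ 2 * ((1 / 3 - 229 / 1000 - 88 / 1000) +
          (1 / 4 - 458 / 3000 - 44 / 1000) * a - (458 / 4000 + 88 / 3000) * a ^ 2 -
          22 / 1000 * a ^ 3) := by ring
      rw [e]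
      have e5 : a ^ 2 ≤ 2389 / 100000 := by nlinarith
      have e6 : a ^ 3 ≤ 4 / 1000 := by nlinarith
      have : 0 ≤ a ^ 2 * ((1 / 3 - 229 / 1000 - 88 / 1000) +
          (1 / 4 - 458 / 3000 - 44 / 1000) * a - (458 / 4000 + 88 / 3000) * a ^ 2 -
          22 / 1000 * a ^ 3) := mul_nonneg b2 (by linarith)
      linarith
    have m5 : 271828 / 100000 * (1 + 42 / 1000 * a) ≤ Real.exp (K * nl) := by
      have e1 : Real.exp (1 + 42 / 1000 * a) ≤ Real.exp (K * nl) := Real.exp_le_exp.2 m3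
      refine le_trans ?_ e1
      rw [Real.exp_add]
      have e3 := Real.add_one_le_exp (42 / 1000 * a)
      have e4 := Real.exp_one_gt_d9
      exact mul_le_mul (by linarith) (by linarith) (by positivity) (Real.exp_pos _).le
    have m6 : Real.exp (k * nl) = Real.exp (K * nl) * Real.exp (-((c - b) * nl)) := by
      rw [← Real.exp_add, hK]
      congr 1
      ring
    have m7 : 1 - (c - b) * nl ≤ Real.exp (-((c - b) * nl)) := by
      have := Real.add_one_le_exp (-((c - b) * nl))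
      linarith
    have m8 : 1 + b ≤ (1 + c) * (1 - (c - b) * nl) := by
      have i2 : (1 + c) * nl ≤ 2 * (2 / 10) := mul_le_mul (by linarith) hnlu hnl0 (by norm_num)
      have i3 : 0 ≤ (c - b) * (1 - (1 + c) * nl) := mul_nonneg (by linarith) (by linarith)
      nlinarith
    have m9 : (1 + b) * Real.exp (K * nl) ≤ (1 + c) * Real.exp (k * nl) := by
      rw [m6]
      have hc0 : 0 ≤ 1 + c := by linarith
      calc (1 + b) * Real.exp (K * nl) ≤ (1 + c) * (1 - (c - b) * nl) * Real.exp (K * nl) :=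
            mul_le_mul_of_nonneg_right m8 (Real.exp_pos _).le
        _ ≤ (1 + c) * Real.exp (-((c - b) * nl)) * Real.exp (K * nl) :=
            mul_le_mul_of_nonneg_right (mul_le_mul_of_nonneg_left m7 hc0) (Real.exp_pos _).le
        _ = _ := by ring
    have m10 : (1 + b) * (271828 / 100000 * (1 + 42 / 1000 * a)) ≤ (1 + b) * Real.exp (K * nl) :=
      mul_le_mul_of_nonneg_left m5 (by rw [hb]; positivity)
    refine le_trans ?_ (m10.trans m9)
    rw [hb]
    nlinarith
  refine ⟨ha0, ha6, hl, hu, hTl, hTu, h4, ?_, hr⟩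
  rw [hT, Real.log_pow]
  unfold ff
  rw [← hka]
  field_simp

end Pool.Agent.Q176.EM.CS

namespace Pool.Agent.Q176.EM

theorem cs : Pool.Agent.Q54.EM.S_CS := CS.cs

end Pool.Agent.Q176.EM
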