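import Pool.Agent.Q54.EM.StmN

/-!
# Project EM of helper54, job BXA: the box check in zone A
-/

set_option autoImplicit false

namespace Pool.Agent.Q176.EM

open Pool.Agent.Q54.EM

/-! ## The quantities of a box -/

section

variable {K : Type} [Field K]

def c1 (q1 t2 : K) : K := 458 / 1000 + 88 / 1000 * (q1 * (1 - t2))

def R1 (q1 t2 : K) : K := 1 + c1 q1 t2 * (q1 * (1 - t2))

def MM (q : K) : K := 4 - 2 * q - q ^ 2 / 4 - 16 / 100 * q ^ 3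

def wa (q2 t : K) : K := q2 / ((1 - t) * MM q2)

def NN (q1 q2 t1 t2 : K) : K := (1 - q2) * (t1 * R1 q1 t2 - wa q2 t1)

def DD (q1 q2 t2 : K) : K := 1 - (1 - q1) * q1 * (R1 q1 t2 - wa q2 t2)

def e1 (q1 q2 t1 t2 : K) : K := NN q1 q2 t1 t2 / DD q1 q2 t2

def yy (q2 : K) : K := 1 - 567 / 1000 * q2

def d1 (q1 q2 t1 t2 : K) : K := e1 q1 q2 t1 t2 / (36 / 10 * e1 q1 q2 t1 t2 + 1)

def lhs (q1 q2 t1 t2 : K) : K :=
  (1 - q2) * yy q2 * e1 q1 q2 t1 t2 * d1 q1 q2 t1 t2 / 2 *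
    (yy q2 * (1 - 4 / 10 * d1 q1 q2 t1 t2) - q2)

def rhs (q1 q2 t1 t2 : K) : K :=
  (1 / 2 - c1 q1 t2) * t2 + (1 / 3 - c1 q1 t2 / 2) * q2 * (1 - (1 - t2) ^ 2) +
    (1 / 4 - c1 q1 t2 / 3) * q2 ^ 2 * (1 - (1 - t2) ^ 3) +
    (1 / 5 - c1 q1 t2 / 4) * q2 ^ 3 * (1 - (1 - t2) ^ 4) + q2 ^ 4 / (6 * (1 - q2)) -
    c1 q1 t2 * e1 q1 q2 t1 t2 * q1 * (1 + q1 / 2)

end

/-- the check of a box -/
def chk (q1 q2 t1 t2 : ℚ) : Bool :=
  decide (15456 / 100000 < q1 * (1 - t2)) ||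
    (decide (0 ≤ NN q1 q2 t1 t2) && (decide (0 < DD q1 q2 t2) && (decide (wa q2 t2 ≤ R1 q1 t2) &&
      decide (rhs q1 q2 t1 t2 < lhs q1 q2 t1 t2))))

/-- bisection -/
def go : ℕ → ℚ → ℚ → ℚ → ℚ → Bool
  | 0, q1, q2, t1, t2 => chk q1 q2 t1 t2
  | n + 1, q1, q2, t1, t2 => chk q1 q2 t1 t2 ||
      (if t2 - t1 < 2 * (q2 - q1) then go n q1 ((q1 + q2) / 2) t1 t2 && go n ((q1 + q2) / 2) q2 t1 t2
      else go n q1 q2 t1 ((t1 + t2) / 2) && go n q1 q2 ((t1 + t2) / 2) t2)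

theorem go_true : go 12 0 (3 / 10) (2 / 10) (7 / 10) = true := by decide +kernel

/-! ## Soundness -/

theorem M_pos {q : ℝ} (h0 : 0 ≤ q) (h1 : q ≤ 3 / 10) : 33 / 10 ≤ MM q := by
  unfold MM
  have a2 : q ^ 2 ≤ 9 / 100 := by nlinarith
  have a3 : q ^ 3 ≤ 27 / 1000 := by nlinarith [mul_le_mul a2 h1 h0 (by norm_num)]
  linarith

theorem M_anti {q q' : ℝ} (h0 : 0 ≤ q) (h : q ≤ q') : MM q' ≤ MM q := by
  unfold MM
  have a2 : q ^ 2 ≤ q' ^ 2 := pow_le_pow_left₀ h0 h 2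
  have a3 : q ^ 3 ≤ q' ^ 3 := pow_le_pow_left₀ h0 h 3
  linarith

theorem M_le {q : ℝ} (h0 : 0 ≤ q) (h1 : q ≤ 3 / 10) : MM q ≤ (1 + √(1 - q)) ^ 2 := by
  have h2 : 1 - q / 2 - q ^ 2 / 8 - 8 / 100 * q ^ 3 ≤ √(1 - q) := by
    apply Real.le_sqrt_of_sq_le
    have a2 : 0 ≤ q ^ 2 := by positivity
    have a3 : 0 ≤ q ^ 3 := by positivity
    have e : (1 - q / 2 - q ^ 2 / 8 - 8 / 100 * q ^ 3) ^ 2 =
        1 - q - q ^ 3 * (35 / 1000 - 95625 / 1000000 * q - 2 / 100 * q ^ 2 - 64 / 10000 * q ^ 3) := by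
      ring
    rw [e]
    have b2 : q ^ 2 ≤ 9 / 100 := by nlinarith
    have b3 : q ^ 3 ≤ 27 / 1000 := by nlinarith [mul_le_mul b2 h1 h0 (by norm_num)]
    have : 0 ≤ q ^ 3 * (35 / 1000 - 95625 / 1000000 * q - 2 / 100 * q ^ 2 - 64 / 10000 * q ^ 3) :=
      mul_nonneg a3 (by linarith)
    linarith
  have h3 : √(1 - q) ^ 2 = 1 - q := Real.sq_sqrt (by linarith)
  have e : (1 + √(1 - q)) ^ 2 = 1 + 2 * √(1 - q) + √(1 - q) ^ 2 := by ring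
  rw [e, h3]
  unfold MM
  linarith

/-- a lower bound for `e` -/
theorem e_low {q1 q2 t1 t2 q t c e : ℝ} (hq1 : 0 ≤ q1) (hq1' : q1 ≤ q) (hq2 : q ≤ q2)
    (hq2' : q2 ≤ 3 / 10) (ht1 : t1 ≤ t) (ht1' : 2 / 10 ≤ t1) (ht2 : t ≤ t2) (ht2' : t2 ≤ 7 / 10)
    (hq : 0 < q) (hka : q * (1 - t) ≤ 15456 / 100000)
    (hc : 458 / 1000 + 88 / 1000 * (q * (1 - t)) ≤ c) (hc2 : c ≤ 4724 / 10000) (he : 0 ≤ e)
    (h : (1 - q) * q * (t * (1 / (1 - c * (q * (1 - t)))) - q / ((1 - t) * (1 + √(1 - q)) ^ 2)) ≤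
      e * (1 - (1 - q) * q * (1 / (1 - c * (q * (1 - t))) - q / ((1 - t) * (1 + √(1 - q)) ^ 2))))
    (hN : 0 ≤ NN q1 q2 t1 t2) (hD : 0 < DD q1 q2 t2) (hw : wa q2 t2 ≤ R1 q1 t2) :
    c1 q1 t2 ≤ c ∧ 0 ≤ e1 q1 q2 t1 t2 ∧ q * e1 q1 q2 t1 t2 ≤ e := by
  have hk0 : 0 ≤ q1 * (1 - t2) := mul_nonneg hq1 (by linarith)
  have hkk : q1 * (1 - t2) ≤ q * (1 - t) := mul_le_mul hq1' (by linarith) (by linarith) hq.le
  have hc1 : c1 q1 t2 ≤ c := by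
    unfold c1
    linarith
  have hc10 : 0 ≤ c1 q1 t2 := by
    unfold c1
    linarith
  obtain ⟨ka, hkad⟩ : ∃ ka : ℝ, ka = q * (1 - t) := ⟨_, rfl⟩
  rw [← hkad] at h hkk hka
  have hka0 : 0 ≤ ka := hk0.trans hkk
  have hcka : c1 q1 t2 * (q1 * (1 - t2)) ≤ c * ka := mul_le_mul hc1 hkk hk0 (hc10.trans hc1)
  have hck1 : c * ka ≤ 4724 / 10000 * (15456 / 100000) := mul_le_mul hc2 hka hka0 (by norm_num)
  have hR : R1 q1 t2 ≤ 1 / (1 - c * ka) := by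
    rw [le_div_iff₀ (by linarith)]
    unfold R1
    have h1 : 0 ≤ c1 q1 t2 * (q1 * (1 - t2)) := mul_nonneg hc10 hk0
    calc (1 + c1 q1 t2 * (q1 * (1 - t2))) * (1 - c * ka) ≤ (1 + c * ka) * (1 - c * ka) :=
          mul_le_mul_of_nonneg_right (by linarith) (by linarith)
      _ = 1 - (c * ka) ^ 2 := by ring
      _ ≤ 1 := by linarith [sq_nonneg (c * ka)]
  have hR1 : 1 ≤ R1 q1 t2 := by
    unfold R1
    linarith [mul_nonneg hc10 hk0]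
  have hM2 := M_pos (hq.le.trans hq2) hq2'
  have hM20 : 0 < MM q2 := by linarith
  have hMq : MM q2 ≤ (1 + √(1 - q)) ^ 2 := (M_anti hq.le hq2).trans (M_le hq.le (hq2.trans hq2'))
  have h1t : 0 < 1 - t := by linarith
  have hwv : q / ((1 - t) * (1 + √(1 - q)) ^ 2) ≤ wa q2 t := by
    unfold wa
    refine div_le_div₀ (hq.le.trans hq2) hq2 (mul_pos h1t hM20) ?_
    exact mul_le_mul_of_nonneg_left hMq h1t.le
  have hvb : wa q2 t ≤ wa q2 t2 := by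
    unfold wa
    refine div_le_div_of_nonneg_left (hq.le.trans hq2) (mul_pos (by linarith) hM20) ?_
    exact mul_le_mul_of_nonneg_right (by linarith) hM20.le
  have hva : wa q2 t - wa q2 t1 ≤ (t - t1) * R1 q1 t2 := by
    unfold wa
    have h1t1 : 0 < 1 - t1 := by linarith
    have e : q2 / ((1 - t) * MM q2) - q2 / ((1 - t1) * MM q2) =
        (t - t1) * (q2 / ((1 - t) * (1 - t1) * MM q2)) := by
      field_simp
      ring
    rw [e]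
    refine mul_le_mul_of_nonneg_left (le_trans ?_ hR1) (by linarith)
    rw [div_le_one (by positivity)]
    have h5 : (3 / 10 : ℝ) * (3 / 10) ≤ (1 - t) * (1 - t1) :=
      mul_le_mul (by linarith) (by linarith) (by norm_num) h1t.le
    have h6 : (3 / 10 : ℝ) * (3 / 10) * MM q2 ≤ (1 - t) * (1 - t1) * MM q2 :=
      mul_le_mul_of_nonneg_right h5 hM20.le
    have h7 : q2 ≤ (3 / 10 : ℝ) * (3 / 10) * MM q2 := by
      have hq20 : 0 ≤ q2 := hq.le.trans hq2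
      unfold MM
      have a2 : q2 ^ 2 ≤ 9 / 100 := by nlinarith
      have a3 : q2 ^ 3 ≤ 27 / 1000 := by nlinarith [mul_le_mul a2 hq2' hq20 (by norm_num)]
      linarith
    exact h7.trans h6
  obtain ⟨w, hwd⟩ : ∃ w : ℝ, w = q / ((1 - t) * (1 + √(1 - q)) ^ 2) := ⟨_, rfl⟩
  obtain ⟨R, hRd⟩ : ∃ R : ℝ, R = 1 / (1 - c * ka) := ⟨_, rfl⟩
  rw [← hwd] at h hwv
  rw [← hRd] at h hR
  obtain ⟨v, hv⟩ : ∃ v : ℝ, v = wa q2 t := ⟨_, rfl⟩
  rw [← hv] at hwv hvb hva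
  obtain ⟨X, hX⟩ : ∃ X : ℝ, X = (1 - q) * q := ⟨_, rfl⟩
  rw [← hX] at h
  have hX0 : 0 ≤ X := by rw [hX]; exact mul_nonneg (by linarith) hq.le
  have k1 : X * ((t + e) * R1 q1 t2 - (1 + e) * v) ≤ X * ((t + e) * R - (1 + e) * w) := by
    refine mul_le_mul_of_nonneg_left ?_ hX0
    have i1 : (t + e) * R1 q1 t2 ≤ (t + e) * R := mul_le_mul_of_nonneg_left hR (by linarith)
    have i2 : (1 + e) * w ≤ (1 + e) * v := mul_le_mul_of_nonneg_left hwv (by linarith)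
    linarith
  have k2 : X * (t * R1 q1 t2 - v) ≤ e * (1 - X * (R1 q1 t2 - v)) := by
    have i1 : X * ((t + e) * R - (1 + e) * w) = X * (t * R - w) + e * (X * (R - w)) := by ring
    have i2 : X * ((t + e) * R1 q1 t2 - (1 + e) * v) =
      X * (t * R1 q1 t2 - v) + e * (X * (R1 q1 t2 - v)) := by ring
    rw [i1, i2] at k1
    have i3 : e * (1 - X * (R - w)) = e - e * (X * (R - w)) := by ring
    have i4 : e * (1 - X * (R1 q1 t2 - v)) = e - e * (X * (R1 q1 t2 - v)) := by ring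
    rw [i3] at h
    rw [i4]
    linarith
  have hX1 : (1 - q1) * q1 ≤ X := by
    rw [hX]
    nlinarith
  have k3 : e * (1 - X * (R1 q1 t2 - v)) ≤ e * DD q1 q2 t2 := by
    refine mul_le_mul_of_nonneg_left ?_ he
    unfold DD
    have : (1 - q1) * q1 * (R1 q1 t2 - wa q2 t2) ≤ X * (R1 q1 t2 - v) :=
      mul_le_mul hX1 (by linarith) (by linarith) hX0
    linarith
  have hN1 : 0 ≤ t1 * R1 q1 t2 - wa q2 t1 := by
    unfold NN at hN
    by_contra hcon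
    push Not at hcon
    have : (1 - q2) * (t1 * R1 q1 t2 - wa q2 t1) < 0 := mul_neg_of_pos_of_neg (by linarith) hcon
    linarith
  have k4 : q * NN q1 q2 t1 t2 ≤ X * (t * R1 q1 t2 - v) := by
    unfold NN
    have i1 : (1 - q2) * q ≤ X := by
      rw [hX]
      exact mul_le_mul_of_nonneg_right (by linarith) hq.le
    calc q * ((1 - q2) * (t1 * R1 q1 t2 - wa q2 t1)) = (1 - q2) * q * (t1 * R1 q1 t2 - wa q2 t1) := by
          ring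
      _ ≤ X * (t1 * R1 q1 t2 - wa q2 t1) := mul_le_mul_of_nonneg_right i1 hN1
      _ ≤ X * (t * R1 q1 t2 - v) := by
          refine mul_le_mul_of_nonneg_left ?_ hX0
          linarith
  refine ⟨hc1, div_nonneg hN hD.le, ?_⟩
  unfold e1
  rw [← mul_div_assoc, div_le_iff₀ hD]
  exact (k4.trans k2).trans k3

/-- the upper bound of `Dp` -/
theorem Dp_up {q1 q2 t1 t2 q t c e : ℝ} (hq1 : 0 ≤ q1) (hq1' : q1 ≤ q) (hq2 : q ≤ q2)
    (hq2' : q2 ≤ 3 / 10) (ht1 : t1 ≤ t) (ht1' : 2 / 10 ≤ t1) (ht2 : t ≤ t2) (ht2' : t2 ≤ 7 / 10)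
    (hq : 0 < q) (hc1 : c1 q1 t2 ≤ c) (hc2 : c ≤ 4724 / 10000)
    (he1 : 0 ≤ e1 q1 q2 t1 t2) (he : q * e1 q1 q2 t1 t2 ≤ e) :
    Dp q t c e ≤ q * rhs q1 q2 t1 t2 := by
  have hc10 : 0 ≤ c1 q1 t2 := by
    unfold c1
    have := mul_nonneg hq1 (show 0 ≤ 1 - t2 by linarith)
    linarith
  unfold Dp rhs
  generalize c1 q1 t2 = C at hc1 hc10 ⊢
  generalize e1 q1 q2 t1 t2 = E at he1 he ⊢
  have s0 : 0 ≤ 1 - t2 := by linarith
  have s1 : 1 - t2 ≤ 1 - t := by linarith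
  have s2 : 0 ≤ 1 - t := by linarith
  have s3 : 1 - t ≤ 1 := by linarith
  have p2 : (1 - t2) ^ 2 ≤ (1 - t) ^ 2 := pow_le_pow_left₀ s0 s1 2
  have p3 : (1 - t2) ^ 3 ≤ (1 - t) ^ 3 := pow_le_pow_left₀ s0 s1 3
  have p4 : (1 - t2) ^ 4 ≤ (1 - t) ^ 4 := pow_le_pow_left₀ s0 s1 4
  have o2 : (1 - t) ^ 2 ≤ 1 := pow_le_one₀ s2 s3
  have o3 : (1 - t) ^ 3 ≤ 1 := pow_le_one₀ s2 s3
  have o4 : (1 - t) ^ 4 ≤ 1 := pow_le_one₀ s2 s3
  have q2s : q ^ 2 ≤ q2 ^ 2 := pow_le_pow_left₀ hq.le hq2 2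
  have q3s : q ^ 3 ≤ q2 ^ 3 := pow_le_pow_left₀ hq.le hq2 3
  have q4s : q ^ 4 ≤ q2 ^ 4 := pow_le_pow_left₀ hq.le hq2 4
  have T1 : (1 / 2 - c) * q * t ≤ q * ((1 / 2 - C) * t2) := by
    have := mul_le_mul (show 1 / 2 - c ≤ 1 / 2 - C by linarith) ht2 (by linarith) (by linarith)
    have := mul_le_mul_of_nonneg_left this hq.le
    linarith
  have T2 : (1 / 3 - c / 2) * q ^ 2 * (1 - (1 - t) ^ 2) ≤
      q * ((1 / 3 - C / 2) * q2 * (1 - (1 - t2) ^ 2)) := by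
    have i1 : (1 / 3 - c / 2) * q ≤ (1 / 3 - C / 2) * q2 :=
      mul_le_mul (by linarith) hq2 hq.le (by linarith)
    have i2 : (1 / 3 - c / 2) * q * (1 - (1 - t) ^ 2) ≤ (1 / 3 - C / 2) * q2 * (1 - (1 - t2) ^ 2) :=
      mul_le_mul i1 (by linarith) (by linarith) (mul_nonneg (by linarith) (by linarith))
    have := mul_le_mul_of_nonneg_left i2 hq.le
    calc _ = q * ((1 / 3 - c / 2) * q * (1 - (1 - t) ^ 2)) := by ring
      _ ≤ _ := this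
  have T3 : (1 / 4 - c / 3) * q ^ 3 * (1 - (1 - t) ^ 3) ≤
      q * ((1 / 4 - C / 3) * q2 ^ 2 * (1 - (1 - t2) ^ 3)) := by
    have i1 : (1 / 4 - c / 3) * q ^ 2 ≤ (1 / 4 - C / 3) * q2 ^ 2 :=
      mul_le_mul (by linarith) q2s (by positivity) (by linarith)
    have i2 : (1 / 4 - c / 3) * q ^ 2 * (1 - (1 - t) ^ 3) ≤
        (1 / 4 - C / 3) * q2 ^ 2 * (1 - (1 - t2) ^ 3) :=
      mul_le_mul i1 (by linarith) (by linarith) (mul_nonneg (by linarith) (by positivity))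
    have := mul_le_mul_of_nonneg_left i2 hq.le
    calc _ = q * ((1 / 4 - c / 3) * q ^ 2 * (1 - (1 - t) ^ 3)) := by ring
      _ ≤ _ := this
  have T4 : (1 / 5 - c / 4) * q ^ 4 * (1 - (1 - t) ^ 4) ≤
      q * ((1 / 5 - C / 4) * q2 ^ 3 * (1 - (1 - t2) ^ 4)) := by
    have i1 : (1 / 5 - c / 4) * q ^ 3 ≤ (1 / 5 - C / 4) * q2 ^ 3 :=
      mul_le_mul (by linarith) q3s (by positivity) (by linarith)
    have i2 : (1 / 5 - c / 4) * q ^ 3 * (1 - (1 - t) ^ 4) ≤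
        (1 / 5 - C / 4) * q2 ^ 3 * (1 - (1 - t2) ^ 4) :=
      mul_le_mul i1 (by linarith) (by linarith)
        (mul_nonneg (by linarith) (pow_nonneg (hq.le.trans hq2) 3))
    have := mul_le_mul_of_nonneg_left i2 hq.le
    calc _ = q * ((1 / 5 - c / 4) * q ^ 3 * (1 - (1 - t) ^ 4)) := by ring
      _ ≤ _ := this
  have T5 : q ^ 5 / (6 * (1 - q)) ≤ q * (q2 ^ 4 / (6 * (1 - q2))) := by
    have i1 : q ^ 4 / (6 * (1 - q)) ≤ q2 ^ 4 / (6 * (1 - q2)) :=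
      div_le_div₀ (by positivity) q4s (by linarith) (by linarith)
    have := mul_le_mul_of_nonneg_left i1 hq.le
    calc _ = q * (q ^ 4 / (6 * (1 - q))) := by ring
      _ ≤ _ := this
  have T6 : q * (C * E * q1 * (1 + q1 / 2)) ≤ c * e * q * (1 + q / 2) := by
    have i0 : q1 * E ≤ e := (mul_le_mul_of_nonneg_right hq1' he1).trans he
    have i1 : C * (q1 * E) ≤ c * e := mul_le_mul hc1 i0 (mul_nonneg hq1 he1) (by linarith)
    have i3 : 0 ≤ C * (q1 * E) := mul_nonneg hc10 (mul_nonneg hq1 he1)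
    have i2 : C * (q1 * E) * (1 + q1 / 2) ≤ c * e * (1 + q / 2) :=
      mul_le_mul i1 (by linarith) (by linarith) (i3.trans i1)
    have := mul_le_mul_of_nonneg_left i2 hq.le
    calc _ = q * (C * (q1 * E) * (1 + q1 / 2)) := by ring
      _ ≤ _ := this
      _ = _ := by ring
  have e : q * ((1 / 2 - C) * t2 + (1 / 3 - C / 2) * q2 * (1 - (1 - t2) ^ 2) +
      (1 / 4 - C / 3) * q2 ^ 2 * (1 - (1 - t2) ^ 3) + (1 / 5 - C / 4) * q2 ^ 3 * (1 - (1 - t2) ^ 4) +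
      q2 ^ 4 / (6 * (1 - q2)) - C * E * q1 * (1 + q1 / 2)) = q * ((1 / 2 - C) * t2) +
      q * ((1 / 3 - C / 2) * q2 * (1 - (1 - t2) ^ 2)) +
      q * ((1 / 4 - C / 3) * q2 ^ 2 * (1 - (1 - t2) ^ 3)) +
      q * ((1 / 5 - C / 4) * q2 ^ 3 * (1 - (1 - t2) ^ 4)) + q * (q2 ^ 4 / (6 * (1 - q2))) -
      q * (C * E * q1 * (1 + q1 / 2)) := by ring
  rw [e]
  linarith

/-- the lower bound of `Gp` -/
theorem Gp_low {q1 q2 t1 t2 q e : ℝ} (hq2 : q ≤ q2) (hq2' : q2 ≤ 3 / 10) (hq : 0 < q)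
    (he1 : 0 ≤ e1 q1 q2 t1 t2) (he : q * e1 q1 q2 t1 t2 ≤ e) :
    q * lhs q1 q2 t1 t2 ≤ Gp q e := by
  unfold lhs Gp d1 yy
  generalize e1 q1 q2 t1 t2 = E at he1 he ⊢
  have he0 : 0 ≤ e := (mul_nonneg hq.le he1).trans he
  obtain ⟨D, hD⟩ : ∃ D : ℝ, D = e / (36 / 10 * e + q) := ⟨_, rfl⟩
  obtain ⟨D1, hD1⟩ : ∃ D1 : ℝ, D1 = E / (36 / 10 * E + 1) := ⟨_, rfl⟩
  rw [← hD, ← hD1]
  have hD10 : 0 ≤ D1 := by rw [hD1]; positivity
  have hDD : D1 ≤ D := by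
    rw [hD, hD1, div_le_div_iff₀ (by positivity) (by positivity)]
    nlinarith
  have hDu : D ≤ 10 / 36 := by
    rw [hD, div_le_iff₀ (by positivity)]
    linarith
  obtain ⟨y, hy⟩ : ∃ y : ℝ, y = 1 - 567 / 1000 * q := ⟨_, rfl⟩
  obtain ⟨y2, hy2⟩ : ∃ y2 : ℝ, y2 = 1 - 567 / 1000 * q2 := ⟨_, rfl⟩
  rw [← hy, ← hy2]
  have hyy : y2 ≤ y := by rw [hy, hy2]; linarith
  have hy20 : 8 / 10 ≤ y2 := by rw [hy2]; linarith
  have hy1 : y ≤ 1 := by rw [hy]; linarith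
  have k1 : (1 - q2) * y2 * (q * E) ≤ (1 - q) * y * e := by
    have i1 : (1 - q2) * y2 ≤ (1 - q) * y :=
      mul_le_mul (by linarith) hyy (by linarith) (by linarith)
    exact mul_le_mul i1 he (mul_nonneg hq.le he1) (mul_nonneg (by linarith) (by linarith))
  have k2 : D1 * (y * (1 - 4 / 10 * D1) - q) ≤ D * (y * (1 - 4 / 10 * D) - q) := by
    have i1 : D * (y * (1 - 4 / 10 * D) - q) - D1 * (y * (1 - 4 / 10 * D1) - q) =
        (D - D1) * (y - q - 4 / 10 * y * (D + D1)) := by ring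
    have i2 : 4 / 10 * y * (D + D1) ≤ 4 / 10 * y * (20 / 36) :=
      mul_le_mul_of_nonneg_left (by linarith) (by linarith)
    have i3 : 0 ≤ (D - D1) * (y - q - 4 / 10 * y * (D + D1)) :=
      mul_nonneg (by linarith) (by linarith)
    linarith
  have hD1u : D1 ≤ 10 / 36 := hDD.trans hDu
  have k3 : D1 * (y2 * (1 - 4 / 10 * D1) - q2) ≤ D1 * (y * (1 - 4 / 10 * D1) - q) := by
    refine mul_le_mul_of_nonneg_left ?_ hD10
    have : y2 * (1 - 4 / 10 * D1) ≤ y * (1 - 4 / 10 * D1) :=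
      mul_le_mul_of_nonneg_right hyy (by linarith)
    linarith
  have k4 : 0 ≤ D1 * (y2 * (1 - 4 / 10 * D1) - q2) := by
    refine mul_nonneg hD10 ?_
    have : 8 / 10 * (8 / 10) ≤ y2 * (1 - 4 / 10 * D1) :=
      mul_le_mul hy20 (by linarith) (by norm_num) (by linarith)
    linarith
  have k5 : (1 - q2) * y2 * (q * E) * (D1 * (y2 * (1 - 4 / 10 * D1) - q2)) ≤
      (1 - q) * y * e * (D * (y * (1 - 4 / 10 * D) - q)) :=
    mul_le_mul k1 (k3.trans k2) k4 (mul_nonneg (mul_nonneg (by linarith) (by linarith)) he0)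
  have e1' : q * ((1 - q2) * y2 * E * D1 / 2 * (y2 * (1 - 4 / 10 * D1) - q2)) =
      (1 - q2) * y2 * (q * E) * (D1 * (y2 * (1 - 4 / 10 * D1) - q2)) / 2 := by ring
  have e2' : (1 - q) * y * e * D / 2 * (y * (1 - 4 / 10 * D) - q) =
      (1 - q) * y * e * (D * (y * (1 - 4 / 10 * D) - q)) / 2 := by ring
  rw [e1', e2']
  linarith

/-- the statement of a box -/
def Bx (q1 q2 t1 t2 : ℝ) : Prop := ∀ q t c e : ℝ, q1 ≤ q → q ≤ q2 → t1 ≤ t → t ≤ t2 → 0 < q →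
  q * (1 - t) ≤ 15456 / 100000 → 458 / 1000 + 88 / 1000 * (q * (1 - t)) ≤ c → c ≤ 4724 / 10000 →
  0 ≤ e →
  (1 - q) * q * (t * (1 / (1 - c * (q * (1 - t)))) - q / ((1 - t) * (1 + √(1 - q)) ^ 2)) ≤
    e * (1 - (1 - q) * q * (1 / (1 - c * (q * (1 - t))) - q / ((1 - t) * (1 + √(1 - q)) ^ 2))) →
  Dp q t c e < Gp q e

theorem chk_sound {q1 q2 t1 t2 : ℚ} (h : chk q1 q2 t1 t2 = true) (hq1 : 0 ≤ q1)
    (hq2 : q2 ≤ 3 / 10) (ht1 : 2 / 10 ≤ t1) (ht2 : t2 ≤ 7 / 10) :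
    Bx q1 q2 t1 t2 := by
  have hq1' : (0 : ℝ) ≤ q1 := by exact_mod_cast hq1
  have hq2' : (q2 : ℝ) ≤ 3 / 10 := by
    have : ((q2 : ℚ) : ℝ) ≤ ((3 / 10 : ℚ) : ℝ) := by exact_mod_cast hq2
    push_cast at this
    exact this
  have ht1' : (2 / 10 : ℝ) ≤ t1 := by
    have : ((2 / 10 : ℚ) : ℝ) ≤ ((t1 : ℚ) : ℝ) := by exact_mod_cast ht1
    push_cast at this
    exact this
  have ht2' : (t2 : ℝ) ≤ 7 / 10 := by
    have : ((t2 : ℚ) : ℝ) ≤ ((7 / 10 : ℚ) : ℝ) := by exact_mod_cast ht2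
    push_cast at this
    exact this
  unfold chk at h
  rw [Bool.or_eq_true, Bool.and_eq_true, Bool.and_eq_true, Bool.and_eq_true, decide_eq_true_eq,
    decide_eq_true_eq, decide_eq_true_eq, decide_eq_true_eq, decide_eq_true_eq] at h
  intro q t c e a1 a2 a3 a4 a5 a6 a7 a8 a9 a10
  rcases h with h | ⟨h1, h2, h3, h4⟩
  · exfalso
    have h' : ((15456 / 100000 : ℚ) : ℝ) < ((q1 * (1 - t2) : ℚ) : ℝ) := by exact_mod_cast h
    push_cast at h'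
    have : (q1 : ℝ) * (1 - t2) ≤ q * (1 - t) := mul_le_mul a1 (by linarith) (by linarith) a5.le
    linarith
  · have h1' : (0 : ℝ) ≤ NN (q1 : ℝ) q2 t1 t2 := by
      have : ((0 : ℚ) : ℝ) ≤ ((NN q1 q2 t1 t2 : ℚ) : ℝ) := by exact_mod_cast h1
      unfold NN R1 c1 wa MM at this ⊢
      push_cast at this
      exact this
    have h2' : (0 : ℝ) < DD (q1 : ℝ) q2 t2 := by
      have : ((0 : ℚ) : ℝ) < ((DD q1 q2 t2 : ℚ) : ℝ) := by exact_mod_cast h2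
      unfold DD R1 c1 wa MM at this ⊢
      push_cast at this
      exact this
    have h3' : wa (q2 : ℝ) t2 ≤ R1 (q1 : ℝ) t2 := by
      have : ((wa q2 t2 : ℚ) : ℝ) ≤ ((R1 q1 t2 : ℚ) : ℝ) := by exact_mod_cast h3
      unfold R1 c1 wa MM at this ⊢
      push_cast at this
      exact this
    have h4' : rhs (q1 : ℝ) q2 t1 t2 < lhs (q1 : ℝ) q2 t1 t2 := by
      have : ((rhs q1 q2 t1 t2 : ℚ) : ℝ) < ((lhs q1 q2 t1 t2 : ℚ) : ℝ) := by exact_mod_cast h4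
      unfold rhs lhs d1 yy e1 NN DD R1 c1 wa MM at this ⊢
      push_cast at this
      exact this
    obtain ⟨b1, b2, b3⟩ := e_low hq1' a1 a2 hq2' a3 ht1' a4 ht2' a5 a6 a7 a8 a9 a10 h1' h2' h3'
    have c1' := Dp_up hq1' a1 a2 hq2' a3 ht1' a4 ht2' a5 b1 a8 b2 b3
    have c2' := Gp_low (q1 := (q1 : ℝ)) (t1 := (t1 : ℝ)) (t2 := (t2 : ℝ)) a2 hq2' a5 b2 b3
    have c3' : q * rhs (q1 : ℝ) q2 t1 t2 < q * lhs (q1 : ℝ) q2 t1 t2 := mul_lt_mul_of_pos_left h4' a5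
    linarith

theorem go_sound (n : ℕ) : ∀ q1 q2 t1 t2 : ℚ, go n q1 q2 t1 t2 = true → 0 ≤ q1 → q1 ≤ q2 →
    q2 ≤ 3 / 10 → 2 / 10 ≤ t1 → t1 ≤ t2 → t2 ≤ 7 / 10 → Bx q1 q2 t1 t2 := by
  induction n with
  | zero =>
    intro q1 q2 t1 t2 h h1 _ h3 h4 _ h6
    exact chk_sound h h1 h3 h4 h6
  | succ n ih =>
    intro q1 q2 t1 t2 h h1 h2 h3 h4 h5 h6
    unfold go at h
    rw [Bool.or_eq_true] at h
    rcases h with h | h
    · exact chk_sound h h1 h3 h4 h6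
    · split_ifs at h with hc
      · rw [Bool.and_eq_true] at h
        have i1 := ih _ _ _ _ h.1 h1 (by linarith) (by linarith) h4 h5 h6
        have i2 := ih _ _ _ _ h.2 (by linarith) (by linarith) h3 h4 h5 h6
        push_cast at i1 i2
        intro q t c e a1 a2
        rcases le_total q (((q1 : ℝ) + q2) / 2) with hm | hm
        · exact i1 q t c e a1 hm
        · exact i2 q t c e hm a2
      · rw [Bool.and_eq_true] at h
        have i1 := ih _ _ _ _ h.1 h1 h2 h3 h4 (by linarith) (by linarith)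
        have i2 := ih _ _ _ _ h.2 h1 h2 h3 (by linarith) (by linarith) h6
        push_cast at i1 i2
        intro q t c e a1 a2 a3 a4
        rcases le_total t (((t1 : ℝ) + t2) / 2) with hm | hm
        · exact i1 q t c e a1 a2 a3 hm
        · exact i2 q t c e a1 a2 hm a4

theorem bxa : S_BXA := by
  intro q t c e a1 a2 a3 a4 a5 a6 a7 a8 _ a10
  have h := go_sound 12 0 (3 / 10) (2 / 10) (7 / 10) go_true (by norm_num) (by norm_num) (by norm_num)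
    (by norm_num) (by norm_num) (by norm_num)
  push_cast at h
  exact h q t c e a1.le a2 a3 a4 a1 a5 a6 a7 a8 a10

end Pool.Agent.Q176.EM
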