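import Pool.Agent.Q45.EM.StmC

/-!
# Project EM: cycle lengths of Frobenius on the roots of a separable polynomial
-/

set_option autoImplicit false
set_option linter.all false

open Polynomial

namespace Pool.Agent.Q176.EM

/-- Counting the parts of the partition of a permutation by means of the periods of the points. -/
theorem count_parts {α : Type*} [Fintype α] [DecidableEq α] (π : Equiv.Perm α) (d : α → ℕ)
    (hd : ∀ x j, (π ^ j) x = x ↔ d x ∣ j) (n : ℕ) :
    n * (Equiv.Perm.partition π).parts.count n = (Finset.univ.filter (fun x => d x = n)).card := by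
  classical
  have hpos : ∀ x, 0 < d x := by
    intro x
    have h1 : (π ^ orderOf π) x = x := by rw [pow_orderOf_eq_one]; rfl
    exact Nat.pos_of_dvd_of_pos ((hd x _).1 h1) (orderOf_pos π)
  have hone : ∀ x, π x = x ↔ d x = 1 := by
    intro x
    have := hd x 1
    rw [pow_one] at this
    rw [this, Nat.dvd_one]
  rw [Equiv.Perm.parts_partition, Multiset.count_add, Multiset.count_replicate]
  rcases Nat.eq_zero_or_pos n with rfl | hn
  · simp only [Nat.zero_mul]
    symm
    rw [Finset.card_eq_zero, Finset.filter_eq_empty_iff]
    intro x _ h
    have := hpos x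
    omega
  rcases Nat.eq_or_lt_of_le hn with h1 | h2
  · have h1' : n = 1 := h1.symm
    subst h1'
    have h3 : π.cycleType.count 1 = 0 := by
      rw [Multiset.count_eq_zero]
      intro h
      have := Equiv.Perm.one_lt_of_mem_cycleType h
      omega
    rw [h3, if_pos rfl, Nat.zero_add, Nat.one_mul, ← Finset.card_compl]
    · congr 1
      ext x
      rw [Finset.mem_compl, Equiv.Perm.mem_support, not_not, Finset.mem_filter, hone]
      simp
  · have h2' : n ≠ 1 := by
      intro h
      rw [h] at h2
      exact lt_irrefl _ h2
    rw [if_neg (fun h => h2' h.symm), Nat.add_zero, Equiv.Perm.cycleType_def, Multiset.count_map]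
    have hU : (Finset.univ.filter (fun x => d x = n))
        = (π.cycleFactorsFinset.filter (fun c => c.support.card = n)).biUnion
            (fun c => c.support) := by
      have key : ∀ x, π x ≠ x → (π.cycleOf x).support.card = d x := by
        intro x hx
        have hc : (π.cycleOf x).IsCycle := Equiv.Perm.isCycle_cycleOf π hx
        rw [← hc.orderOf]
        have h4 : (π.cycleOf x) x ≠ x := by
          rw [Equiv.Perm.cycleOf_apply_self]
          exact hx
        apply Nat.dvd_antisymm
        · rw [orderOf_dvd_iff_pow_eq_one, hc.pow_eq_one_iff' h4,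
            Equiv.Perm.cycleOf_pow_apply_self]
          exact (hd x _).2 dvd_rfl
        · rw [← hd x, ← Equiv.Perm.cycleOf_pow_apply_self, pow_orderOf_eq_one]
          rfl
      ext x
      simp only [Finset.mem_filter, Finset.mem_univ, true_and, Finset.mem_biUnion]
      constructor
      · intro hx
        have hx' : π x ≠ x := by
          intro h
          rw [hone] at h
          exact h2' (by rw [← hx, h])
        refine ⟨π.cycleOf x, ⟨?_, ?_⟩, ?_⟩
        · rw [Equiv.Perm.cycleOf_mem_cycleFactorsFinset_iff, Equiv.Perm.mem_support]
          exact hx'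
        · rw [key x hx', hx]
        · rw [Equiv.Perm.mem_support, Equiv.Perm.cycleOf_apply_self]
          exact hx'
      · rintro ⟨c, ⟨hc, hcn⟩, hxc⟩
        have hcx := Equiv.Perm.cycle_is_cycleOf hxc hc
        have hx' : π x ≠ x := by
          have h5 := hxc
          rw [hcx, Equiv.Perm.mem_support, Equiv.Perm.cycleOf_apply_self] at h5
          exact h5
        rw [← key x hx', ← hcx, hcn]
    rw [hU, Finset.card_biUnion]
    · have h6 : ∑ c ∈ π.cycleFactorsFinset.filter (fun c => c.support.card = n), c.support.card
          = ∑ c ∈ π.cycleFactorsFinset.filter (fun c => c.support.card = n), n := by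
        apply Finset.sum_congr rfl
        intro c hc
        exact (Finset.mem_filter.1 hc).2
      rw [h6, Finset.sum_const, smul_eq_mul, Nat.mul_comm]
      congr 1
      rw [Finset.card_def, Finset.filter_val]
      congr 1
      apply Multiset.filter_congr
      intro c _
      exact eq_comm
    · intro c hc c' hc' hne
      have h7 := π.cycleFactorsFinset_pairwise_disjoint (Finset.mem_filter.1 hc).1
        (Finset.mem_filter.1 hc').1 hne
      exact h7.disjoint_support

/-- The period of an element of the separable closure of a finite field under Frobenius is the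
degree of its minimal polynomial. -/
theorem period {k k' : Type*} [Field k] [Finite k] [Field k'] [Algebra k k'] (x : k')
    (hx : IsIntegral k x) (j : ℕ) :
    x ^ (Nat.card k ^ j) = x ↔ (minpoly k x).natDegree ∣ j := by
  classical
  haveI : Fintype k := Fintype.ofFinite k
  set L := IntermediateField.adjoin k {x} with hL
  haveI : FiniteDimensional k L := IntermediateField.adjoin.finiteDimensional hx
  haveI : Finite L := Module.finite_of_finite k
  have h1 : Module.finrank k L = (minpoly k x).natDegree := IntermediateField.adjoin.finrank hx
  rw [← h1, ← FiniteField.orderOf_frobeniusAlgHom k L, orderOf_dvd_iff_pow_eq_one]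
  have h2 : ∀ y : L, ((FiniteField.frobeniusAlgHom k L) ^ j) y = y ^ (Nat.card k ^ j) := by
    intro y
    rw [AlgHom.coe_pow, FiniteField.coe_frobeniusAlgHom, pow_iterate, Nat.card_eq_fintype_card]
  constructor
  · intro h
    apply (IntermediateField.adjoin.powerBasis hx).algHom_ext
    rw [IntermediateField.adjoin.powerBasis_gen, h2]
    apply Subtype.ext
    show (x : k') ^ (Nat.card k ^ j) = x
    exact h
  · intro h
    have h3 := h2 (IntermediateField.AdjoinSimple.gen k x)
    rw [h] at h3
    have h4 := congrArg (fun y : L => (y : k')) h3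
    simpa using h4.symm

/-- Counting roots of a product of irreducible separable polynomials by their degrees. -/
theorem count_roots {k k' : Type*} [Field k] [Field k'] [Algebra k k'] [IsSepClosed k'] (n : ℕ)
    (s : Multiset k[X]) (hs : ∀ g ∈ s, Irreducible g) (hsep : ∀ g ∈ s, g.Separable) :
    (s.prod.aroots k').countP (fun x => (minpoly k x).natDegree = n)
      = n * (s.map natDegree).count n := by
  classical
  induction s using Multiset.induction_on with
  | empty => simp
  | cons g s ih =>
    have hg := hs g (Multiset.mem_cons_self g s)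
    have hgs := hsep g (Multiset.mem_cons_self g s)
    have hs' : ∀ g ∈ s, Irreducible g := fun g hg => hs g (Multiset.mem_cons_of_mem hg)
    have hne : g * s.prod ≠ 0 := by
      apply mul_ne_zero hg.ne_zero
      apply Multiset.prod_ne_zero
      intro h
      exact (hs' 0 h).ne_zero rfl
    rw [Multiset.prod_cons, aroots_mul hne, Multiset.countP_add,
      ih hs' (fun g hg => hsep g (Multiset.mem_cons_of_mem hg)), Multiset.map_cons,
      Multiset.count_cons, Nat.mul_add, Nat.add_comm]
    congr 1
    have hdeg : ∀ x ∈ g.aroots k', (minpoly k x).natDegree = g.natDegree := by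
      intro x hx
      rw [mem_aroots] at hx
      have h1 := minpoly.eq_of_irreducible hg hx.2
      rw [← h1, natDegree_mul_C]
      exact inv_ne_zero (leadingCoeff_ne_zero.2 hg.ne_zero)
    have hcard : (g.aroots k').card = g.natDegree := by
      have h2 : (g.map (algebraMap k k')).Splits :=
        IsSepClosed.splits_of_separable _ (hgs.map)
      rw [aroots_def, ← h2.natDegree_eq_card_roots, natDegree_map]
    by_cases h : n = g.natDegree
    · rw [if_pos h, Nat.mul_one, h, ← hcard, Multiset.countP_eq_card]
      intro x hx
      rw [hdeg x hx, hcard]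
    · rw [if_neg h, Nat.mul_zero, Multiset.countP_eq_zero]
      intro x hx h3
      exact h (by rw [← h3, hdeg x hx])

theorem main : Pool.Agent.Q45.EM.S_FRB := by
  classical
  intro k k' _ _ _ _ _ p s hp hs hass π hπ
  haveI : IsSepClosed k' := IsSepClosure.sep_closed k
  have hp0 : p ≠ 0 := hp.ne_zero
  have hsep : ∀ g ∈ s, g.Separable := by
    intro g hg
    exact hp.of_dvd ((Multiset.dvd_prod hg).trans hass.symm.dvd)
  have hint : ∀ x : p.rootSet k', IsIntegral k (x : k') := by
    intro x
    have h1 := x.2
    rw [mem_rootSet] at h1
    have h2 : IsAlgebraic k (x : k') := ⟨p, hp0, h1.2⟩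
    exact h2.isIntegral
  have hpow : ∀ (x : p.rootSet k') (j : ℕ), (((π ^ j) x : p.rootSet k') : k')
      = (x : k') ^ (Nat.card k ^ j) := by
    intro x j
    induction j with
    | zero => simp
    | succ j ih =>
      rw [pow_succ', Equiv.Perm.mul_apply, hπ, ih, ← pow_mul, pow_succ]
  have hper : ∀ (x : p.rootSet k') (j : ℕ), (π ^ j) x = x ↔
      (minpoly k (x : k')).natDegree ∣ j := by
    intro x j
    rw [← period (x : k') (hint x) j, ← hpow, Subtype.ext_iff]
  have hroots : p.aroots k' = s.prod.aroots k' := by
    obtain ⟨u, hu⟩ := hass
    obtain ⟨c, hc, hcu⟩ := Polynomial.isUnit_iff.1 u.isUnit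
    have h1 : p * C c ≠ 0 := mul_ne_zero hp0 (C_ne_zero.2 hc.ne_zero)
    rw [← hu, ← hcu, aroots_mul h1, aroots_C, add_zero]
  apply Multiset.ext.2
  intro n
  have hc := count_parts π (fun x => (minpoly k (x : k')).natDegree) hper n
  have hr := count_roots (k' := k') n s hs hsep
  have hcr : (Finset.univ.filter
      (fun x : p.rootSet k' => (minpoly k (x : k')).natDegree = n)).card
      = (p.aroots k').countP (fun x => (minpoly k x).natDegree = n) := by
    have hnd : (p.aroots k').Nodup := nodup_roots hp.map
    rw [Multiset.countP_eq_card_filter, ← Multiset.toFinset_card_of_nodup (hnd.filter _),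
      Multiset.toFinset_filter, ← Finset.card_map ⟨fun x : p.rootSet k' => (x : k'),
        Subtype.val_injective⟩]
    congr 1
    ext y
    simp only [Finset.mem_map, Finset.mem_filter, Finset.mem_univ, true_and,
      Function.Embedding.coeFn_mk, Multiset.mem_toFinset]
    constructor
    · rintro ⟨x, hx, rfl⟩
      refine ⟨?_, hx⟩
      have h1 := x.2
      rw [mem_rootSet] at h1
      rw [mem_aroots]
      exact h1
    · rintro ⟨h1, h2⟩
      rw [mem_aroots] at h1
      exact ⟨⟨y, mem_rootSet.2 h1⟩, h2, rfl⟩
  rcases Nat.eq_zero_or_pos n with rfl | hn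
  · rw [Multiset.count_eq_zero_of_notMem, Multiset.count_eq_zero_of_notMem]
    · intro h
      obtain ⟨g, hg, hg0⟩ := Multiset.mem_map.1 h
      have := (hs g hg).natDegree_pos
      omega
    · intro h
      have := (Equiv.Perm.partition π).parts_pos h
      omega
  · apply Nat.eq_of_mul_eq_mul_left hn
    rw [hc, hcr, hroots, hr]

end Pool.Agent.Q176.EM
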